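import Pool.Agent.MP_591151_lc.Lf.T
import Pool.Agent.MP_591151_lc.Defs

/-! Borel graphs with a Borel orientation of finite out-degree. -/

namespace Pool.Agent.MP_591151_lc.Lf

open Set MeasureTheory

section
variable {X : Type} {G : SimpleGraph X}

theorem fin_countable {I : Type} [Countable I] {d : X → I} (hd : IsDistinguishing G d) :
    {x | {y | G.Reachable x y}.Finite}.Countable := by
  classical
  have h1 : ∀ x : {x | {y | G.Reachable x y}.Finite}, ∃ (n : ℕ) (p : Fin n → X),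
      ∀ y, G.Reachable x y ↔ ∃ i, p i = y := fun x => by
    obtain ⟨n, p, -, hp⟩ := x.2.fin_param
    exact ⟨n, p, fun y => (Set.ext_iff.1 hp y).symm⟩
  choose n p hp using h1
  let cd : (Σ n, Fin n → X) →
      Σ n, (Fin n → I) × (Fin n → Fin n → Prop) × (Fin n → Fin n → Prop) := fun a =>
    ⟨a.1, fun i => d (a.2 i), fun i j => a.2 i = a.2 j, fun i j => G.Adj (a.2 i) (a.2 j)⟩
  let code := fun x => cd ⟨n x, p x⟩
  have key : ∀ (x x' : X) (n : ℕ) (p q : Fin n → X), (∀ y, G.Reachable x y ↔ ∃ i, p i = y) →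
      (∀ y, G.Reachable x' y ↔ ∃ i, q i = y) → (∀ i, d (p i) = d (q i)) →
      (∀ i j, p i = p j ↔ q i = q j) → (∀ i j, G.Adj (p i) (p j) ↔ G.Adj (q i) (q j)) →
      G.Reachable x x' := by
    intro x x' n p q hp hq e1 e2 e3
    by_contra hn
    have dis : ∀ i j, ¬ G.Reachable (p i) (q j) := fun i j h =>
      hn ((((hp _).2 ⟨i, rfl⟩).trans h).trans ((hq _).2 ⟨j, rfl⟩).symm)
    let σ : X → X := fun y => if h : ∃ i, p i = y then q h.choose else
      if h : ∃ i, q i = y then p h.choose else y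
    have s1 : ∀ i, σ (p i) = q i := fun i => by
      have h : ∃ j, p j = p i := ⟨i, rfl⟩
      simp only [σ, dif_pos h]
      exact (e2 _ _).1 h.choose_spec
    have s2 : ∀ i, σ (q i) = p i := fun i => by
      have h : ∃ j, q j = q i := ⟨i, rfl⟩
      have h' : ¬ ∃ j, p j = q i := fun ⟨j, e⟩ => dis j i (e ▸ .refl _)
      simp only [σ, dif_neg h', dif_pos h]
      exact (e2 _ _).2 h.choose_spec
    have tri : ∀ y, (∃ i, p i = y) ∨ (∃ i, q i = y) ∨
        (σ y = y ∧ (∀ i, ¬ G.Adj (p i) y) ∧ ∀ i, ¬ G.Adj (q i) y) := fun y => by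
      by_cases h : ∃ i, p i = y
      · exact Or.inl h
      by_cases h' : ∃ i, q i = y
      · exact Or.inr (Or.inl h')
      refine Or.inr (Or.inr ⟨by simp only [σ, dif_neg h, dif_neg h'],
        fun i a => h ((hp _).1 (((hp _).2 ⟨i, rfl⟩).trans a.reachable)),
        fun i a => h' ((hq _).1 (((hq _).2 ⟨i, rfl⟩).trans a.reachable))⟩)
    have inv : Function.Involutive σ := fun y => by
      rcases tri y with ⟨i, rfl⟩ | ⟨i, rfl⟩ | h
      · rw [s1, s2]
      · rw [s2, s1]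
      · rw [h.1, h.1]
    have adj : ∀ a b, G.Adj a b → G.Adj (σ a) (σ b) := fun a b h => by
      rcases tri a with ⟨i, rfl⟩ | ⟨i, rfl⟩ | ha <;> rcases tri b with ⟨j, rfl⟩ | ⟨j, rfl⟩ | hb
      · rw [s1, s1]; exact (e3 _ _).1 h
      · exact (dis _ _ h.reachable).elim
      · exact (hb.2.1 _ h).elim
      · exact (dis _ _ h.symm.reachable).elim
      · rw [s2, s2]; exact (e3 _ _).2 h
      · exact (hb.2.2 _ h).elim
      · exact (ha.2.1 _ h.symm).elim
      · exact (ha.2.2 _ h.symm).elim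
      · rw [ha.1, hb.1]; exact h
    obtain ⟨i, hi⟩ := (hp x).1 (.refl x)
    have := hd ⟨inv.toPerm, fun {a b} => ⟨fun h => by
        have := adj _ _ h
        rwa [show σ (inv.toPerm σ a) = a from inv a, show σ (inv.toPerm σ b) = b from inv b] at this,
        adj a b⟩⟩
      (fun y => by
        show d (σ y) = d y
        rcases tri y with ⟨i, rfl⟩ | ⟨i, rfl⟩ | h
        · rw [s1, e1]
        · rw [s2, e1]
        · rw [h.1]) (p i)
    exact dis i i (by rw [← s1, show σ (p i) = p i from this])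
  have gen : ∀ (x x' : X) (a b : Σ n, Fin n → X), (∀ y, G.Reachable x y ↔ ∃ i, a.2 i = y) →
      (∀ y, G.Reachable x' y ↔ ∃ i, b.2 i = y) → cd a = cd b → G.Reachable x x' := by
    rintro x x' ⟨n, p⟩ ⟨m, q⟩ h1 h2 h
    obtain rfl : n = m := congrArg Sigma.fst h
    have h3 := eq_of_heq (Sigma.mk.inj h).2
    simp only [Prod.mk.injEq, funext_iff, eq_iff_iff] at h3
    exact key x x' n p q h1 h2 h3.1 h3.2.1 h3.2.2
  have fib : ∀ x x', code x = code x' → G.Reachable x.1 x'.1 := fun x x' h =>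
    gen _ _ ⟨n x, p x⟩ ⟨n x', p x'⟩ (hp x) (hp x') h
  rw [← countable_coe_iff, ← countable_univ_iff, ← preimage_univ (f := code),
    ← biUnion_preimage_singleton]
  refine countable_univ.biUnion fun t _ => ?_
  rcases (code ⁻¹' {t}).eq_empty_or_nonempty with h | ⟨x, hx⟩
  · simp [h]
  · exact ((x.2.preimage Subtype.val_injective.injOn).subset fun x' hx' =>
      fib x x' (hx.trans hx'.symm)).countable

/-- y is a neighbour of x with colour a.1 that sees the colours in a.2. -/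
def Pr (G : SimpleGraph X) (c : X → ℕ) (a : ℕ × List ℕ) (x y : X) : Prop :=
  G.Adj x y ∧ c y = a.1 ∧ ∀ k ∈ a.2, ∃ u, G.Adj y u ∧ c u = k

/-- y is the only such neighbour. -/
def Step (G : SimpleGraph X) (c : X → ℕ) (a : ℕ × List ℕ) (x y : X) : Prop :=
  Pr G c a x y ∧ ¬ ∃ y', Pr G c a x y' ∧ ¬ y' = y

/-- Walks named by a list. -/
def Wk (G : SimpleGraph X) (c : X → ℕ) : List (ℕ × List ℕ) → X → X → Prop
  | [], x, y => x = y
  | a :: w, x, y => ∃ t, Step G c a x t ∧ Wk G c w t y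

theorem Wk.unique {c : X → ℕ} {w : List (ℕ × List ℕ)} {x y y' : X} (h : Wk G c w x y)
    (h' : Wk G c w x y') : y = y' := by
  induction w generalizing x with
  | nil => exact h.symm.trans h'
  | cons a w ih =>
    obtain ⟨t, h1, h2⟩ := h
    obtain ⟨t', h3, h4⟩ := h'
    obtain rfl : t' = t := by_contra fun e => h1.2 ⟨t', h3.1, e⟩
    exact ih h2 h4

theorem Wk.map {c : X → ℕ} (φ : G ≃g G) (hφ : ∀ x, c (φ x) = c x) {w : List (ℕ × List ℕ)}
    {x y : X} (h : Wk G c w x y) : Wk G c w (φ x) (φ y) := by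
  have e : ∀ a x y, Pr G c a (φ x) (φ y) ↔ Pr G c a x y := fun a x y => by
    refine and_congr φ.map_adj_iff (and_congr (by rw [hφ]) (forall₂_congr fun k _ => ?_))
    rw [φ.surjective.exists]
    simp only [φ.map_adj_iff, hφ]
  induction w generalizing x with
  | nil => exact congrArg φ h
  | cons a w ih =>
    obtain ⟨t, h1, h2⟩ := h
    refine ⟨φ t, ⟨(e _ _ _).2 h1.1, fun ⟨y', h3, h4⟩ => ?_⟩, ih h2⟩
    obtain ⟨y', rfl⟩ := φ.surjective y'
    exact h1.2 ⟨y', (e _ _ _).1 h3, fun e => h4 (congrArg φ e)⟩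

theorem Wk.exists {c : X → ℕ} (h : ∀ x y, G.Adj x y → ∃ a, Step G c a x y) {x y : X}
    (r : G.Reachable x y) : ∃ w, Wk G c w x y := by
  obtain ⟨r⟩ := r
  induction r with
  | nil => exact ⟨[], rfl⟩
  | cons e _ ih =>
    obtain ⟨w, hw⟩ := ih
    obtain ⟨a, ha⟩ := h _ _ e
    exact ⟨a :: w, _, ha, hw⟩

/-- The finite set of rivals of u. -/
def Rv (G : SimpleGraph X) (c : X → ℕ) (u u' : X) : Prop :=
  ∃ y, (u = y ∨ (G.Adj u y ∧ c y ≤ c u)) ∧
    ∃ x, (G.Adj y x ∧ ¬ ∃ t, G.Adj y t ∧ ¬ c t ≤ c u ∧ ¬ c x ≤ c t) ∧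
      ∃ z, (G.Adj x z ∧ c z ≤ c u) ∧ (z = u' ∨ (G.Adj z u' ∧ c u' ≤ c u))

theorem Rv.finite {c : X → ℕ} (hc : ∀ x k, {y | G.Adj x y ∧ c y ≤ k}.Finite) (u : X) :
    {u' | Rv G c u u'}.Finite := by
  have a : ∀ z, {y | z = y ∨ (G.Adj z y ∧ c y ≤ c u)}.Finite := fun z =>
    ((finite_singleton z).union (hc z (c u))).subset fun y h => h.imp Eq.symm id
  refine fin_comp (R := fun z y => z = y ∨ (G.Adj z y ∧ c y ≤ c u)) (a u) fun y =>
    fin_comp (R := fun y x => G.Adj y x ∧ ¬ ∃ t, G.Adj y t ∧ ¬ c t ≤ c u ∧ ¬ c x ≤ c t) ?_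
      fun x => fin_comp (R := fun x z => G.Adj x z ∧ c z ≤ c u) (hc x (c u)) a
  by_cases h : ∃ t, G.Adj y t ∧ ¬ c t ≤ c u
  · obtain ⟨t, h1, h2⟩ := h
    exact (hc y (c t)).subset fun x hx => ⟨hx.1, by_contra fun e => hx.2 ⟨t, h1, h2, e⟩⟩
  · exact (hc y (c u)).subset fun x hx => ⟨hx.1, by_contra fun e => h ⟨x, hx.1, e⟩⟩

theorem exists_step {c c' : X → ℕ} (hc : ∀ x k, {y | G.Adj x y ∧ c y ≤ k}.Finite)
    (h1 : ∀ u u', c' u = c' u' → c u = c u') (h2 : ∀ u u', Rv G c u u' → c' u = c' u' → u = u')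
    (x0 y : X) (h : G.Adj x0 y) : ∃ a, Step G c' a x0 y := by
  classical
  have key : ∀ z, ∃ k, (∃ u, G.Adj y u ∧ c' u = k) ∧
      (G.Adj x0 z → c' z = c' y → (∃ u, G.Adj z u ∧ c' u = k) → z = y) := fun z => by
    by_cases hz : G.Adj x0 z ∧ c' z = c' y ∧ ¬ z = y
    swap
    · exact ⟨c' x0, ⟨x0, h.symm, rfl⟩, fun a b _ => by_contra fun e => hz ⟨a, b, e⟩⟩
    obtain ⟨z1, z2, z3⟩ := hz
    have z4 := h1 _ _ z2
    obtain ⟨x, ⟨x1, x2⟩, x3⟩ := (measure c).wf.has_min {x | G.Adj y x ∧ G.Adj x z}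
      ⟨x0, h.symm, z1⟩
    by_cases hu : ∃ u, G.Adj y u ∧ c y ≤ c u ∧ c u < c x
    · have fi : {u | G.Adj y u ∧ c y ≤ c u ∧ c u < c x}.Finite :=
        (hc y (c x)).subset fun u hu => ⟨hu.1, hu.2.2.le⟩
      obtain ⟨u, ⟨u1, u2, u3⟩, u4⟩ := fi.exists_maximalFor c _ hu
      refine ⟨c' u, ⟨u, u1, rfl⟩, fun _ _ ⟨u', v1, v2⟩ => ?_⟩
      have v3 := h1 _ _ v2
      obtain rfl : u = u' := h2 u u' ⟨y, Or.inr ⟨u1.symm, u2⟩, x, ⟨x1, fun ⟨t, t1, t2, t3⟩ =>
        t2 (u4 ⟨t1, by omega, by omega⟩ (by omega))⟩, z, ⟨x2, by omega⟩,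
        Or.inr ⟨v1, v3.le⟩⟩ v2.symm
      exact (x3 u ⟨u1, v1.symm⟩ u3).elim
    · exact (z3 (h2 y z ⟨y, Or.inl rfl, x, ⟨x1, fun ⟨t, t1, t2, t3⟩ =>
        hu ⟨t, t1, by omega, by omega⟩⟩, z, ⟨x2, z4.le⟩, Or.inl rfl⟩ z2.symm).symm).elim
  choose k k1 k2 using key
  refine ⟨(c' y, (hc x0 (c y)).toFinset.toList.map k), ⟨h, rfl, fun j hj => ?_⟩,
    fun ⟨z, ⟨z1, z2, z3⟩, z4⟩ => z4 (k2 z z1 z2 (z3 _ (List.mem_map_of_mem ?_)))⟩
  · obtain ⟨z, -, rfl⟩ := List.mem_map.1 hj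
    exact k1 z
  · simpa using ⟨z1, (h1 _ _ z2).le⟩

end

variable {X : Type} [MeasurableSpace X] [StandardBorelSpace X] {G : SimpleGraph X}

theorem reach_meas (hG : MR G.Adj) (hc : ∀ x, {y | G.Adj x y}.Countable) :
    MR G.Reachable ∧ ∀ x, {y | G.Reachable x y}.Countable := by
  let R : ℕ → X → X → Prop := fun n => Nat.rec Eq (fun _ Rn x y => ∃ t, G.Adj x t ∧ Rn t y) n
  have h1 : ∀ x y, G.Reachable x y ↔ ∃ n, R n x y := fun x y => by
    constructor
    · rintro ⟨r⟩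
      induction r with
      | nil => exact ⟨0, rfl⟩
      | cons e _ ih => exact ⟨ih.choose + 1, _, e, ih.choose_spec⟩
    · rintro ⟨n, h⟩
      induction n generalizing x with
      | zero => exact (show x = y from h) ▸ .refl x
      | succ n ih =>
        obtain ⟨t, h1, h2⟩ := h
        exact h1.reachable.trans (ih t h2)
  have h2 : ∀ n, MR (R n) := fun n => by
    induction n with
    | zero => exact meq measurable_fst measurable_snd
    | succ n ih => exact hG.comp ih hc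
  have h3 : ∀ n x, {y | R n x y}.Countable := fun n => by
    induction n with
    | zero => exact fun x => (countable_singleton x).mono fun y h => Eq.symm h
    | succ n ih =>
      exact fun x => ((hc x).biUnion fun t _ => ih t).mono
        fun y ⟨t, h1, h2⟩ => mem_biUnion (x := t) h1 h2
  refine ⟨?_, fun x => (countable_iUnion fun n => h3 n x).mono fun y h => mem_iUnion.2 ((h1 x y).1 h)⟩
  simp only [MR, h1]
  exact Measurable.exists h2

theorem fin_col (hG : MR G.Adj) (hc : ∀ x, {y | G.Adj x y}.Countable) {O : X → X → Prop}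
    (o1 : MR O) (o2 : ∀ x, {y | O x y}.Finite) (o3 : ∀ x y, G.Adj x y → O x y ∨ O y x) :
    ∃ c : X → ℕ, Measurable c ∧ ∀ x k, {y | G.Adj x y ∧ c y ≤ k}.Finite := by
  classical
  obtain ⟨r1, r2⟩ := reach_meas hG hc
  obtain ⟨g, g1, -, g3⟩ := fm G.reachableSetoid.iseqv r1 r2
  have h0 : ∀ z, ∃ k, ¬ ∃ x, O z x ∧ G.Adj x z ∧ ¬ ∃ i, i ≤ k ∧ g i x = z := fun z => by
    have : ∀ x, ∃ i, G.Adj x z → g i x = z := fun x => by
      by_cases h : G.Adj x z
      · exact ((g3 x z).2 h.reachable).imp fun _ h _ => h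
      · exact ⟨0, fun h' => (h h').elim⟩
    choose i hi using this
    obtain ⟨m, hm⟩ := ((o2 z).image i).bddAbove
    exact ⟨m, fun ⟨x, h1, h2, h3⟩ => h3 ⟨i x, hm ⟨x, h1, rfl⟩, hi x h2⟩⟩
  refine ⟨fun z => Nat.find (h0 z), measurable_find h0 fun k => ?_, fun x k => ?_⟩
  · refine measurableSet_setOfPred.2 (mex (P := fun z x => O z x ∧ G.Adj x z ∧
      ¬ ∃ i, i ≤ k ∧ g i x = z) (o1.and ((hG.app measurable_snd measurable_fst).and
      (Measurable.exists fun i => measurable_const.and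
        (meq ((g1 i).comp measurable_snd) measurable_fst)).not)) fun z => ?_).not
    exact (o2 z).countable.mono fun _ h => h.1
  · refine ((o2 x).union ((finite_le_nat k).image fun i => g i x)).subset fun y ⟨h1, h2⟩ => ?_
    refine (o3 x y h1).imp id fun h => by_contra fun hn => ?_
    exact Nat.find_spec (h0 y) ⟨x, h, h1, fun ⟨i, i1, i2⟩ => hn ⟨i, i1.trans h2, i2⟩⟩

theorem Rv.meas (hG : MR G.Adj) (hc : ∀ x, {y | G.Adj x y}.Countable) {c : X → ℕ}
    (hm : Measurable c) : MR (Rv G c) := by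
  have a1 : MR fun (p : X × X × X) x => G.Adj p.2.1 x ∧
      ¬ ∃ t, G.Adj p.2.1 t ∧ ¬ c t ≤ c p.1 ∧ ¬ c x ≤ c t :=
    (hG.app measurable_fst.snd.fst measurable_snd).and
      (mex (P := fun (q : (X × X × X) × X) t => G.Adj q.1.2.1 t ∧ ¬ c t ≤ c q.1.1 ∧ ¬ c q.2 ≤ c t)
        ((hG.app measurable_fst.fst.snd.fst measurable_snd).and
          ((mle (hm.comp measurable_snd) (hm.comp measurable_fst.fst.fst)).not.and
            (mle (hm.comp measurable_fst.snd) (hm.comp measurable_snd)).not))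
        fun q => (hc _).mono fun _ h => h.1).not
  have a2 : MR fun (p : X × X × X) x => ∃ z, (G.Adj x z ∧ c z ≤ c p.1) ∧
      (z = p.2.2 ∨ (G.Adj z p.2.2 ∧ c p.2.2 ≤ c p.1)) :=
    mex (P := fun (q : (X × X × X) × X) z => (G.Adj q.2 z ∧ c z ≤ c q.1.1) ∧
        (z = q.1.2.2 ∨ (G.Adj z q.1.2.2 ∧ c q.1.2.2 ≤ c q.1.1)))
      (((hG.app measurable_fst.snd measurable_snd).and
        (mle (hm.comp measurable_snd) (hm.comp measurable_fst.fst.fst))).and
        ((meq measurable_snd measurable_fst.fst.snd.snd).or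
          ((hG.app measurable_snd measurable_fst.fst.snd.snd).and
            (mle (hm.comp measurable_fst.fst.snd.snd) (hm.comp measurable_fst.fst.fst)))))
      fun q => (hc _).mono fun _ h => h.1.1
  have a3 := mex (P := fun (p : X × X × X) x => (G.Adj p.2.1 x ∧
      ¬ ∃ t, G.Adj p.2.1 t ∧ ¬ c t ≤ c p.1 ∧ ¬ c x ≤ c t) ∧ ∃ z, (G.Adj x z ∧ c z ≤ c p.1) ∧
      (z = p.2.2 ∨ (G.Adj z p.2.2 ∧ c p.2.2 ≤ c p.1))) (a1.and a2)
    fun p => (hc _).mono fun _ h => h.1.1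
  refine mex (P := fun (p : X × X) y => (p.1 = y ∨ (G.Adj p.1 y ∧ c y ≤ c p.1)) ∧
      ∃ x, (G.Adj y x ∧ ¬ ∃ t, G.Adj y t ∧ ¬ c t ≤ c p.1 ∧ ¬ c x ≤ c t) ∧
      ∃ z, (G.Adj x z ∧ c z ≤ c p.1) ∧ (z = p.2 ∨ (G.Adj z p.2 ∧ c p.2 ≤ c p.1)))
    (((meq measurable_fst.fst measurable_snd).or ((hG.app measurable_fst.fst measurable_snd).and
      (mle (hm.comp measurable_snd) (hm.comp measurable_fst.fst)))).and
      (a3.comp (measurable_fst.fst.prodMk (measurable_snd.prodMk measurable_fst.snd))))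
    fun p => ((hc p.1).insert p.1).mono fun y h => h.1.imp Eq.symm And.left

theorem Wk.meas (hG : MR G.Adj) (hc : ∀ x, {y | G.Adj x y}.Countable) {c : X → ℕ}
    (hm : Measurable c) (w : List (ℕ × List ℕ)) : MR (Wk G c w) := by
  have a1 : ∀ a, MR (Pr G c a) := fun a =>
    hG.and ((meq (hm.comp measurable_snd) measurable_const).and (Measurable.forall fun k =>
      measurable_const.imp ((mex (P := fun y u => G.Adj y u ∧ c u = k)
        (hG.and (meq (hm.comp measurable_snd) measurable_const))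
        fun y => (hc y).mono fun _ h => h.1).comp measurable_snd)))
  have a2 : ∀ a, MR (Step G c a) := fun a =>
    (a1 a).and (mex (P := fun (p : X × X) y' => Pr G c a p.1 y' ∧ ¬ y' = p.2)
      (((a1 a).app measurable_fst.fst measurable_snd).and
        (meq measurable_snd measurable_fst.snd).not) fun p => (hc _).mono fun _ h => h.1.1).not
  induction w with
  | nil => exact meq measurable_fst measurable_snd
  | cons a w ih => exact (a2 a).comp ih fun x => (hc x).mono fun _ h => h.1.1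

theorem exists_col (hG : MR G.Adj) (hc : ∀ x, {y | G.Adj x y}.Countable) {O : X → X → Prop}
    (o1 : MR O) (o2 : ∀ x, {y | O x y}.Finite) (o3 : ∀ x y, G.Adj x y → O x y ∨ O y x)
    (hZ : {x | {y | G.Reachable x y}.Finite}.Countable) :
    ∃ c : X → ℕ × ℕ × ℕ, Measurable c ∧ IsDistinguishing G c := by
  classical
  obtain ⟨r1, r2⟩ := reach_meas hG hc
  obtain ⟨c, c1, c2⟩ := fin_col hG hc o1 o2 o3
  obtain ⟨κ, k1, k2⟩ := kst (Rv.meas hG hc c1) (Rv.finite c2)
  let c' : X → ℕ := fun x => Nat.pair (c x) (κ x)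
  have m' : Measurable c' :=
    (measurable_of_countable fun p : ℕ × ℕ => Nat.pair p.1 p.2).comp (c1.prodMk k1)
  have hs := exists_step (c' := c') c2 (fun u u' h => (Nat.pair_eq_pair.1 h).1)
    fun u u' h h' => k2 u u' h (Nat.pair_eq_pair.1 h').2
  obtain ⟨St, s1, s2, s3, s4⟩ := store G.reachableSetoid.iseqv r1 r2
  obtain ⟨β, hβ, hi⟩ := MeasurableSpace.measurable_injection_nat_bool_of_countablySeparated X
  obtain ⟨e, he⟩ := exists_surjective_nat (List (ℕ × List ℕ))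
  let Rc : X → ℕ × ℕ × Bool → Prop := fun y t => ∃ x, St t.1 x y ∧ Wk G c' (e t.2.1) y x ∧
    (∀ j, Wk G c' (e j) y x → t.2.1 ≤ j) ∧ β x t.1 = t.2.2
  have hf : ∀ y, {t | Rc y t}.Finite := fun y => by
    refine ((s4 y).biUnion (t := fun p => {t : ℕ × ℕ × Bool | t.1 = p.1 ∧ Wk G c' (e t.2.1) y p.2 ∧
      (∀ j, Wk G c' (e j) y p.2 → t.2.1 ≤ j) ∧ β p.2 t.1 = t.2.2}) fun p _ => ?_).subset
      fun t ⟨x, h1, h2⟩ => mem_biUnion (x := (t.1, x)) h1 ⟨rfl, h2⟩
    refine Set.Subsingleton.finite fun t ht t' ht' => ?_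
    have e1 : t.1 = t'.1 := ht.1.trans ht'.1.symm
    exact Prod.ext e1 (Prod.ext (le_antisymm (ht.2.2.1 _ ht'.2.1) (ht'.2.2.1 _ ht.2.1))
      (by rw [← ht.2.2.2, ← ht'.2.2.2, e1]))
  have hR : ∀ t, Measurable fun y => Rc y t := fun t =>
    mex (P := fun y x => St t.1 x y ∧ Wk G c' (e t.2.1) y x ∧
        (∀ j, Wk G c' (e j) y x → t.2.1 ≤ j) ∧ β x t.1 = t.2.2)
      (((s1 _).app measurable_snd measurable_fst).and ((Wk.meas hG hc m' _).and
        ((Measurable.forall fun j => (Wk.meas hG hc m' _).imp measurable_const).and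
          (meq ((measurable_pi_apply _).comp (hβ.comp measurable_snd)) measurable_const))))
      fun y => (r2 y).mono fun x h => (s2 _ _ _ h.1).symm
  have m1 : Measurable fun y => Encodable.encode (hf y).toFinset := by
    refine measurable_to_countable fun y => ?_
    have : (fun y => Encodable.encode (hf y).toFinset) ⁻¹' {Encodable.encode (hf y).toFinset} =
        {y' | ∀ t, Rc y' t ↔ Rc y t} := by
      ext y'
      simp [Set.ext_iff]
    rw [this]
    exact measurableSet_setOfPred.2 (Measurable.forall fun t => (hR t).iff measurable_const)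
  obtain ⟨ζ, hζ⟩ := Set.countable_iff_exists_injOn.1 hZ
  let z : X → ℕ := fun x => if {y | G.Reachable x y}.Finite then ζ x + 1 else 0
  have m2 : Measurable z := Measurable.measurable_of_countable_ne (measurable_const (a := 0))
    (hZ.mono fun x hx => by_contra fun h => hx (by simp only [z]; exact (if_neg h).symm))
  refine ⟨fun x => (c' x, z x, Encodable.encode (hf x).toFinset), m'.prodMk (m2.prodMk m1),
    fun φ hφ x => ?_⟩
  simp only [Prod.mk.injEq, Encodable.encode_inj, Finite.toFinset_inj] at hφ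
  by_cases hx : {y | G.Reachable x y}.Finite
  · have h1 := (hφ x).2.1
    simp only [z, if_pos hx] at h1
    split_ifs at h1 with h2
    exact hζ h2 hx (Nat.succ.inj h1)
  refine hi (funext fun n => ?_)
  obtain ⟨y, hy⟩ := s3 n x hx
  have h1 : ∃ i, Wk G c' (e i) y x := (he.exists (p := fun w => Wk G c' w y x)).1
    (Wk.exists hs (s2 _ _ _ hy).symm)
  have h2 : Rc y (n, Nat.find h1, β x n) :=
    ⟨x, hy, Nat.find_spec h1, fun j hj => Nat.find_min' h1 hj, rfl⟩
  obtain ⟨x', -, h3, -, h4⟩ := (Set.ext_iff.1 (hφ y).2.2 _).2 h2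
  rwa [h3.unique (Wk.map φ (fun x => (hφ x).1) (Nat.find_spec h1))] at h4

theorem main (hG : MeasurableSet {p : X × X | G.Adj p.1 p.2})
    (hc : ∀ x, (G.neighborSet x).Countable)
    (hO : ∃ O : Set (X × X), MeasurableSet O ∧ (∀ x, {y | (x, y) ∈ O}.Finite) ∧
      ∀ x y, G.Adj x y → (x, y) ∈ O ∨ (y, x) ∈ O)
    (hD : distNumber G ≤ Cardinal.aleph0) : borelDistNumber G ≤ Cardinal.aleph0 := by
  obtain ⟨O, o1, o2, o3⟩ := hO
  obtain ⟨I, d, hd, e⟩ : ∃ (I : Type) (c : X → I), IsDistinguishing G c ∧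
      Cardinal.mk I = distNumber G :=
    csInf_mem (s := {κ : Cardinal.{0} | ∃ (I : Type) (c : X → I), IsDistinguishing G c ∧
      Cardinal.mk I = κ}) ⟨_, X, id, fun _ h => h, rfl⟩
  have : Countable I := Cardinal.mk_le_aleph0_iff.1 (e ▸ hD)
  obtain ⟨c, c1, c2⟩ := exists_col (O := fun x y => (x, y) ∈ O) (measurableSet_setOfPred.1 hG) hc
    (measurableSet_setOfPred.1 o1) o2 o3 (fin_countable hd)
  refine le_trans (csInf_le' ?_) (Cardinal.mk_le_aleph0 (α := ℕ × ℕ × ℕ))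
  exact ⟨ℕ × ℕ × ℕ, inferInstance, inferInstance, c, c1, c2, rfl⟩

end Pool.Agent.MP_591151_lc.Lf
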