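import Pool.Agent.MP_5045a8_al.UN.FM
import Pool.Agent.MP_591151_lc.Sm.NU

/-! Borel tools: projections, countable colourings and disjoint complete sections. -/

namespace Pool.Agent.MP_591151_lc.Lf

open Set MeasureTheory Pool.Agent.MP_591151_lc.Sm

/-- A measurable relation. -/
def MR {Y X : Type} [MeasurableSpace Y] [MeasurableSpace X] (R : Y → X → Prop) : Prop :=
  Measurable fun p : Y × X => R p.1 p.2

theorem MR.app {Y X Z : Type} [MeasurableSpace Y] [MeasurableSpace X] [MeasurableSpace Z]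
    {R : Y → X → Prop} (h : MR R) {f : Z → Y} {g : Z → X} (hf : Measurable f) (hg : Measurable g) :
    Measurable fun z => R (f z) (g z) :=
  Measurable.comp (g := fun p : Y × X => R p.1 p.2) h (hf.prodMk hg)

variable {X : Type} [MeasurableSpace X] [StandardBorelSpace X]

theorem meq {Z : Type} [MeasurableSpace Z] {f g : Z → X} (hf : Measurable f) (hg : Measurable g) :
    Measurable fun z => f z = g z :=
  measurableSet_setOfPred.1 (measurableSet_eq_fun hf hg)

theorem mle {Z : Type} [MeasurableSpace Z] {f g : Z → ℕ} (hf : Measurable f) (hg : Measurable g) :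
    Measurable fun z => f z ≤ g z :=
  measurableSet_setOfPred.1 (measurableSet_le hf hg)

theorem mex {Y : Type} [MeasurableSpace Y] [StandardBorelSpace Y] {P : Y → X → Prop} (hP : MR P)
    (hc : ∀ y, {x | P y x}.Countable) : Measurable fun y => ∃ x, P y x := by
  have hm : MeasurableSet {p : Y × X | P p.1 p.2} := measurableSet_setOfPred.2 hP
  have := hm.standardBorel
  have hf : Measurable fun p : {p : Y × X | P p.1 p.2} => p.1.1 :=
    measurable_fst.comp measurable_subtype_coe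
  obtain ⟨𝓑, h1, h2, h3⟩ := MP_5045a8_al.UN.lusin_novikov hf fun y => by
    refine countable_of_injective_of_countable_image (f := fun p => p.1.2) ?_ ((hc y).mono ?_)
    · intro p hp q hq e
      exact Subtype.ext (Prod.ext (hp.trans hq.symm) e)
    · rintro _ ⟨p, rfl, rfl⟩
      exact p.2
  refine measurableSet_setOfPred.1 ?_
  have : {y | ∃ x, P y x} = ⋃ B ∈ 𝓑, (fun p : {p : Y × X | P p.1 p.2} => p.1.1) '' B := by
    ext y
    simp only [mem_iUnion, mem_image]
    constructor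
    · rintro ⟨x, hx⟩
      obtain ⟨B, hB, h⟩ := eq_univ_iff_forall.1 h3 ⟨(y, x), hx⟩
      exact ⟨B, hB, _, h, rfl⟩
    · rintro ⟨B, -, p, -, rfl⟩
      exact ⟨p.1.2, p.2⟩
  rw [this]
  exact MeasurableSet.biUnion h1 fun B hB => (h2 B hB).1.image_of_measurable_injOn hf (h2 B hB).2

theorem MR.comp {R S : X → X → Prop} (hR : MR R) (hS : MR S) (hc : ∀ x, {y | R x y}.Countable) :
    MR fun x z => ∃ y, R x y ∧ S y z :=
  mex (P := fun (p : X × X) y => R p.1 y ∧ S y p.2)
    ((hR.app measurable_fst.fst measurable_snd).and (hS.app measurable_snd measurable_fst.snd))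
    fun p => (hc p.1).mono fun _ h => h.1

omit [MeasurableSpace X] [StandardBorelSpace X] in
theorem fin_comp {R S : X → X → Prop} {x : X} (hR : {y | R x y}.Finite)
    (hS : ∀ y, {z | S y z}.Finite) : {z | ∃ y, R x y ∧ S y z}.Finite :=
  (hR.biUnion fun y _ => hS y).subset fun _ ⟨y, h1, h2⟩ => mem_biUnion (x := y) h1 h2

theorem kst {S : X → X → Prop} (hS : MR S) (hf : ∀ y, {z | S y z}.Finite) :
    ∃ κ : X → ℕ, Measurable κ ∧ ∀ y z, S y z → κ y = κ z → y = z := by
  classical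
  obtain ⟨β, hβ, hi⟩ := MeasurableSpace.measurable_injection_nat_bool_of_countablySeparated X
  have hp : ∀ m, Measurable fun y => Encodable.encode (pre (β y) m) := fun m =>
    measurable_to_countable' fun k => hβ (meas_pre m fun u => Encodable.encode u = k)
  have h0 : ∀ y, ∃ m, ¬ ∃ z, S y z ∧ ¬ z = y ∧
      Encodable.encode (pre (β z) m) = Encodable.encode (pre (β y) m) := fun y => by
    have : ∀ z, ∃ k, ¬ z = y → β z k ≠ β y k := fun z => by
      by_cases h : z = y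
      · exact ⟨0, fun h' => (h' h).elim⟩
      · obtain ⟨k, hk⟩ := Function.ne_iff.1 (hi.ne h)
        exact ⟨k, fun _ => hk⟩
    choose k hk using this
    obtain ⟨m, hm⟩ := ((hf y).image k).bddAbove
    refine ⟨m + 1, fun ⟨z, h1, h2, h3⟩ => hk z h2 ?_⟩
    exact pre_eq.1 (Encodable.encode_injective h3) _ (Nat.lt_succ_of_le (hm ⟨z, h1, rfl⟩))
  refine ⟨fun y => Encodable.encode (pre (β y) (Nat.find (h0 y))),
    Measurable.find (f := fun m y => Encodable.encode (pre (β y) m)) hp (fun m => ?_) h0,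
    fun y z h1 h2 => ?_⟩
  · refine measurableSet_setOfPred.2 (mex (P := fun y z => S y z ∧ ¬ z = y ∧
      Encodable.encode (pre (β z) m) = Encodable.encode (pre (β y) m))
      (hS.and ((meq measurable_snd measurable_fst).not.and
      (meq ((hp m).comp measurable_snd) ((hp m).comp measurable_fst)))) fun y => ?_).not
    exact (hf y).countable.mono fun _ h => h.1
  · by_contra hne
    have h3 := congrArg List.length (Encodable.encode_injective h2)
    rw [pre_length, pre_length] at h3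
    exact Nat.find_spec (h0 y) ⟨z, h1, fun e => hne e.symm, Eq.trans (by rw [h3]) h2.symm⟩

theorem fm {E : X → X → Prop} (hE : Equivalence E) (hm : MR E) (hc : ∀ x, {y | E x y}.Countable) :
    ∃ g : ℕ → X → X, (∀ i, Measurable (g i)) ∧ (∀ i, Function.Injective (g i)) ∧
      ∀ x y, (∃ i, g i x = y) ↔ E x y := by
  obtain ⟨π, h1, h2⟩ := MP_5045a8_al.UN.feldman_moore hE (measurableSet_setOfPred.2 hm) hc
  obtain ⟨e, he⟩ := exists_surjective_nat (FreeGroup ℕ)
  refine ⟨fun i => π (e i), fun i => h1 _, fun i => (π (e i)).injective, fun x y => ?_⟩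
  rw [← h2]
  exact (he.exists (p := fun w => π w x = y)).symm

theorem matching {E : X → X → Prop} (hE : Equivalence E) (hm : MR E)
    (hc : ∀ x, {y | E x y}.Countable) {U : X → Prop} (hU : Measurable U) :
    ∃ M : X → X → Prop, MR M ∧ (∀ x y, M x y → U x ∧ U y ∧ E x y) ∧
      (∀ x y x' y', M x y → M x' y' → x ≠ y' ∧ (x = x' ↔ y = y')) ∧
      ∀ x y, U x → U y → E x y → x ≠ y →
        ∃ z, (M x z ∨ M z x) ∨ (M y z ∨ M z y) := by
  classical
  obtain ⟨β, hβ, hi⟩ := MeasurableSpace.measurable_injection_nat_bool_of_countablySeparated X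
  obtain ⟨g, g1, g2, g3⟩ := fm hE hm hc
  let P : ℕ → X → X → Prop := fun k x y => U x ∧ U y ∧ g k.unpair.1 x = y ∧
    β x k.unpair.2 = false ∧ β y k.unpair.2 = true
  have hP : ∀ k, MR (P k) := fun k =>
    (hU.comp measurable_fst).and ((hU.comp measurable_snd).and
      ((meq ((g1 _).comp measurable_fst) measurable_snd).and
      ((meq ((measurable_pi_apply _).comp (hβ.comp measurable_fst)) measurable_const).and
        (meq ((measurable_pi_apply _).comp (hβ.comp measurable_snd)) measurable_const))))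
  let J : ℕ → X → X → Prop := fun k => Nat.rec (fun _ _ => False)
    (fun k Jk x y => Jk x y ∨ (P k x y ∧ ¬ (∃ z, Jk x z ∨ Jk z x) ∧ ¬ ∃ z, Jk y z ∨ Jk z y)) k
  have Js : ∀ k x y, J (k + 1) x y ↔ J k x y ∨
      (P k x y ∧ ¬ (∃ z, J k x z ∨ J k z x) ∧ ¬ ∃ z, J k y z ∨ J k z y) := fun _ _ _ => Iff.rfl
  have J1 : ∀ k x y, J k x y → U x ∧ U y ∧ E x y := fun k => by
    induction k with
    | zero => exact fun _ _ h => h.elim
    | succ k ih =>
      rintro x y (h | ⟨h, -⟩)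
      exacts [ih x y h, ⟨h.1, h.2.1, (g3 _ _).1 ⟨_, h.2.2.1⟩⟩]
  have J2 : ∀ k, MR (J k) := fun k => by
    induction k with
    | zero => exact measurable_const
    | succ k ih =>
      have : Measurable fun x => ∃ z, J k x z ∨ J k z x :=
        mex (ih.or (ih.app measurable_snd measurable_fst)) fun x => (hc x).mono fun z h =>
          h.elim (fun h => (J1 _ _ _ h).2.2) fun h => hE.symm (J1 _ _ _ h).2.2
      exact ih.or ((hP k).and ((this.comp measurable_fst).not.and (this.comp measurable_snd).not))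
  have J3 : ∀ k x y x' y', J k x y → J k x' y' → x ≠ y' ∧ (x = x' ↔ y = y') := fun k => by
    induction k with
    | zero => exact fun _ _ _ _ h => h.elim
    | succ k ih =>
      rintro x y x' y' (h | ⟨h, h1, h2⟩) (h' | ⟨h', h1', h2'⟩)
      · exact ih _ _ _ _ h h'
      · refine ⟨?_, iff_of_false ?_ ?_⟩ <;> rintro rfl
        exacts [h2' ⟨y, Or.inl h⟩, h1' ⟨y, Or.inl h⟩, h2' ⟨x, Or.inr h⟩]
      · refine ⟨?_, iff_of_false ?_ ?_⟩ <;> rintro rfl
        exacts [h1 ⟨x', Or.inr h'⟩, h1 ⟨y', Or.inl h'⟩, h2 ⟨x', Or.inr h'⟩]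
      · refine ⟨?_, ?_, fun e => g2 _ (h.2.2.1.trans (e.trans h'.2.2.1.symm))⟩ <;> rintro rfl
        · simpa using h.2.2.2.1.symm.trans h'.2.2.2.2
        · exact h.2.2.1.symm.trans h'.2.2.1
  have J4 : ∀ k l, k ≤ l → ∀ x y, J k x y → J l x y := fun k l hkl x y h => by
    induction l, hkl using Nat.le_induction with
    | base => exact h
    | succ l _ ih => exact Or.inl ih
  have key : ∀ x y n, U x → U y → E x y → β x n = false → β y n = true →
      ∃ z, ((∃ k, J k x z) ∨ ∃ k, J k z x) ∨ ((∃ k, J k y z) ∨ ∃ k, J k z y) := by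
    intro x y n hx hy h b1 b2
    obtain ⟨i, hi⟩ := (g3 x y).2 h
    rcases em (∃ z, J (Nat.pair i n) x z ∨ J (Nat.pair i n) z x) with ⟨z, hz⟩ | h1
    · exact ⟨z, Or.inl (hz.imp (fun h => ⟨_, h⟩) fun h => ⟨_, h⟩)⟩
    rcases em (∃ z, J (Nat.pair i n) y z ∨ J (Nat.pair i n) z y) with ⟨z, hz⟩ | h2
    · exact ⟨z, Or.inr (hz.imp (fun h => ⟨_, h⟩) fun h => ⟨_, h⟩)⟩
    refine ⟨y, Or.inl (Or.inl ⟨Nat.pair i n + 1, Or.inr ⟨?_, h1, h2⟩⟩)⟩
    simp only [P, Nat.unpair_pair]
    exact ⟨hx, hy, hi, b1, b2⟩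
  refine ⟨fun x y => ∃ k, J k x y, Measurable.exists J2, fun x y ⟨k, h⟩ => J1 k x y h,
    fun x y x' y' ⟨k, h⟩ ⟨l, h'⟩ => J3 (max k l) _ _ _ _ (J4 _ _ (le_max_left _ _) _ _ h)
      (J4 _ _ (le_max_right _ _) _ _ h'), fun x y hx hy h hne => ?_⟩
  obtain ⟨n, hn⟩ := Function.ne_iff.1 (hi.ne hne)
  cases b : β x n
  · exact key x y n hx hy h b (by simpa [b] using hn)
  · obtain ⟨z, hz⟩ := key y x n hy hx (hE.symm h) (by simpa [b] using hn) b
    exact ⟨z, hz.symm⟩

/-- There is a finite-to-one measurable relation from the infinite classes into U. -/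
def Good (E : X → X → Prop) (U : X → Prop) : Prop :=
  Measurable U ∧ ∃ Q : X → X → Prop, MR Q ∧ (∀ x y, Q x y → E x y ∧ U y) ∧
    (∀ x, {y | E x y}.Infinite → ∃ y, Q x y) ∧ ∀ y, {x | Q x y}.Finite

theorem good_of {E : X → X → Prop} (hE : Equivalence E) (hm : MR E)
    (hc : ∀ x, {y | E x y}.Countable) {U : X → Prop} (hU : Good E U) {M : X → X → Prop}
    (m1 : MR M) (m2 : ∀ x y, M x y → U x ∧ U y ∧ E x y)
    (m3' : ∀ x y y', M x y → M x y' → y = y')
    (m4 : ∀ x y, U x → U y → E x y → x ≠ y → ∃ z, (M x z ∨ M z x) ∨ (M y z ∨ M z y)) :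
    Good E fun x => ∃ y, M x y := by
  obtain ⟨hU, Q, q1, q2, q3, q4⟩ := hU
  have a1 : Measurable fun x => ∃ y, M x y := mex m1 fun x => (hc x).mono fun y h => (m2 _ _ h).2.2
  have a2 : Measurable fun x => ∃ z, M x z ∨ M z x :=
    mex (m1.or (m1.app measurable_snd measurable_fst)) fun x => (hc x).mono fun z h =>
      h.elim (fun h => (m2 _ _ h).2.2) fun h => hE.symm (m2 _ _ h).2.2
  let R : X → X → Prop := fun x y => (∃ z, M y z) ∧
    (x = y ∨ M y x ∨ (U x ∧ (¬ ∃ z, M x z ∨ M z x) ∧ E x y))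
  have r1 : MR R := (a1.comp measurable_snd).and ((meq measurable_fst measurable_snd).or
    ((m1.app measurable_snd measurable_fst).or ((hU.comp measurable_fst).and
      ((a2.comp measurable_fst).not.and hm))))
  refine ⟨a1, fun x z => ∃ y, Q x y ∧ R y z, q1.comp r1 fun x => (hc x).mono fun y h => (q2 _ _ h).1,
    ?_, fun x hx => ?_, fun z => ?_⟩
  · rintro x z ⟨y, h1, h2, h3⟩
    refine ⟨hE.trans (q2 _ _ h1).1 ?_, h2⟩
    rcases h3 with rfl | h3 | h3
    exacts [hE.refl _, hE.symm (m2 _ _ h3).2.2, h3.2.2]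
  · obtain ⟨y, hy⟩ := q3 x hx
    by_cases h : ∃ z, M y z ∨ M z y
    · obtain ⟨z, h | h⟩ := h
      · exact ⟨y, y, hy, ⟨z, h⟩, Or.inl rfl⟩
      · exact ⟨z, y, hy, ⟨y, h⟩, Or.inr (Or.inl h)⟩
    · obtain ⟨x', h1, h2⟩ := hx.exists_notMem_finite (q4 y)
      obtain ⟨y', hy'⟩ := q3 x' (hx.mono fun t ht => hE.trans (hE.symm h1) ht)
      have e : E y y' := hE.trans (hE.symm (q2 _ _ hy).1) (hE.trans h1 (q2 _ _ hy').1)
      obtain ⟨z, h3 | h3 | h3⟩ := m4 y y' (q2 _ _ hy).2 (q2 _ _ hy').2 e fun e => h2 (e ▸ hy')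
      · exact (h ⟨z, h3⟩).elim
      · exact ⟨y', y, hy, ⟨z, h3⟩, Or.inr (Or.inr ⟨(q2 _ _ hy).2, h, e⟩)⟩
      · exact ⟨z, y, hy, ⟨y', h3⟩, Or.inr (Or.inr ⟨(q2 _ _ hy).2, h,
          hE.trans e (hE.symm (m2 _ _ h3).2.2)⟩)⟩
  · have f1 : {y | M z y}.Subsingleton := fun a ha b hb => m3' z a b ha hb
    have f2 : {x | U x ∧ (¬ ∃ t, M x t ∨ M t x) ∧ E x z}.Subsingleton := fun a ha b hb => by
      by_contra hne
      obtain ⟨t, h | h⟩ := m4 a b ha.1 hb.1 (hE.trans ha.2.2 (hE.symm hb.2.2)) hne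
      exacts [ha.2.1 ⟨t, h⟩, hb.2.1 ⟨t, h⟩]
    have f3 : {y | R y z}.Finite := ((finite_singleton z).union (f1.finite.union f2.finite)).subset
      fun y h => h.2
    exact (fin_comp (R := fun z y => R y z) (S := fun y x => Q x y) f3 q4).subset
      fun x ⟨y, h1, h2⟩ => ⟨y, h2, h1⟩

theorem store {E : X → X → Prop} (hE : Equivalence E) (hm : MR E)
    (hc : ∀ x, {y | E x y}.Countable) :
    ∃ St : ℕ → X → X → Prop, (∀ n, MR (St n)) ∧ (∀ n x y, St n x y → E x y) ∧
      (∀ n x, {y | E x y}.Infinite → ∃ y, St n x y) ∧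
      ∀ y, {p : ℕ × X | St p.1 p.2 y}.Finite := by
  have split : ∀ U : {U // Good E U}, ∃ V W : {U // Good E U},
      (∀ x, V.1 x → U.1 x) ∧ (∀ x, W.1 x → U.1 x) ∧ ∀ x, V.1 x → ¬ W.1 x := by
    rintro ⟨U, hU⟩
    obtain ⟨M, m1, m2, m3, m4⟩ := matching hE hm hc hU.1
    have a : ∀ x y y', M y x → M y' x → y = y' := fun x y y' h h' => (m3 _ _ _ _ h h').2.2 rfl
    have b : ∀ x y y', M x y → M x y' → y = y' := fun x y y' h h' => (m3 _ _ _ _ h h').2.1 rfl
    refine ⟨⟨_, good_of hE hm hc hU m1 m2 b m4⟩,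
      ⟨_, good_of (M := fun x y => M y x) hE hm hc hU (m1.app measurable_snd measurable_fst)
        (fun x y h => ⟨(m2 _ _ h).2.1, (m2 _ _ h).1, hE.symm (m2 _ _ h).2.2⟩) a
        fun x y h1 h2 h3 h4 => (m4 x y h1 h2 h3 h4).imp fun z h => h.imp Or.symm Or.symm⟩,
      fun x ⟨y, h⟩ => (m2 _ _ h).1, fun x ⟨y, h⟩ => (m2 _ _ h).2.1,
      fun x ⟨y, h⟩ ⟨z, h'⟩ => (m3 _ _ _ _ h h').1 rfl⟩
  choose V W hV hW hVW using split
  let U : ℕ → {U // Good E U} := fun n => W^[n] ⟨fun _ => True, measurable_const, Eq,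
    meq measurable_fst measurable_snd, fun x y h => ⟨h ▸ hE.refl x, trivial⟩,
    fun x _ => ⟨x, rfl⟩, fun y => by simp⟩
  have Us : ∀ n, U (n + 1) = W (U n) := fun n => Function.iterate_succ_apply' _ _ _
  have mono : ∀ n m, n ≤ m → ∀ x, (U m).1 x → (U n).1 x := fun n m h x hx => by
    induction m, h using Nat.le_induction with
    | base => exact hx
    | succ m _ ih => exact ih (hW _ _ (Us m ▸ hx))
  have dis : ∀ n m, n < m → ∀ x, (V (U n)).1 x → ¬ (V (U m)).1 x := fun n m h x h1 h2 =>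
    hVW _ x h1 (Us n ▸ mono (n + 1) m h x (hV _ _ h2))
  choose Q q1 q2 q3 q4 using fun n => (V (U n)).2.2
  refine ⟨Q, q1, fun n x y h => (q2 n x y h).1, q3, fun y => ?_⟩
  by_cases h : ∃ n, (V (U n)).1 y
  · obtain ⟨n, hn⟩ := h
    refine ((q4 n y).image fun x => (n, x)).subset ?_
    rintro ⟨m, x⟩ h
    obtain rfl : m = n := by
      rcases lt_trichotomy m n with h' | h' | h'
      exacts [(dis _ _ h' y (q2 _ _ _ h).2 hn).elim, h', (dis _ _ h' y hn (q2 _ _ _ h).2).elim]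
    exact ⟨x, h, rfl⟩
  · exact finite_empty.subset fun p hp => h ⟨p.1, (q2 _ _ _ hp).2⟩

end Pool.Agent.MP_591151_lc.Lf
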